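import Pool.Agent.Helper15.KP.Defs

set_option autoImplicit false

open MeasureTheory Set Pool.Agent.Helper15.KP

noncomputable section

namespace Pool.Agent.Helper48.KP

lemma continuous_mn {d n : ℕ} (c : Fin (n + 1) → Fin d → ℝ) (R : Fin (n + 1) → ℝ) :
    Continuous (fun z : Fin d → ℝ => mn fun k => sq z (c k) - R k) := by
  unfold mn Pool.Agent.Helper15.KP.sq
  refine Continuous.finset_inf'_apply _ (fun i _ => ?_)
  fun_prop

lemma mn_le_iff {n : ℕ} (g : Fin (n + 1) → ℝ) (t : ℝ) : mn g ≤ t ↔ ∃ k, g k ≤ t := by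
  unfold mn
  rw [Finset.inf'_le_iff]
  simp

lemma volume_lt_top {d n : ℕ} (c : Fin (n + 1) → Fin d → ℝ) (R : Fin (n + 1) → ℝ) (t : ℝ) :
    volume {z : Fin d → ℝ | (mn fun k => sq z (c k) - R k) ≤ t} < ⊤ := by
  have hsub : {z : Fin d → ℝ | (mn fun k => sq z (c k) - R k) ≤ t} ⊆
      ⋃ k, Metric.closedBall (c k) (Real.sqrt (R k + t)) := by
    intro z hz
    obtain ⟨k, hk⟩ := (mn_le_iff _ _).1 hz
    refine mem_iUnion.2 ⟨k, ?_⟩
    rw [Metric.mem_closedBall, dist_pi_le_iff (Real.sqrt_nonneg _)]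
    intro l
    rw [Real.dist_eq]
    refine Real.le_sqrt_of_sq_le ?_
    rw [sq_abs]
    have h1 : (z l - c k l) ^ 2 ≤ sq z (c k) := by
      unfold Pool.Agent.Helper15.KP.sq
      exact Finset.single_le_sum (f := fun l => (z l - c k l) ^ 2)
        (fun i _ => sq_nonneg _) (Finset.mem_univ l)
    linarith
  refine lt_of_le_of_lt (measure_mono hsub) ?_
  refine lt_of_le_of_lt (measure_iUnion_le _) ?_
  rw [tsum_fintype]
  exact ENNReal.sum_lt_top.2 fun k _ => measure_closedBall_lt_top

/-- A smooth nonnegative bump supported in `(0, ε)` with integral one. -/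
lemma exists_bump {ε : ℝ} (hε : 0 < ε) : ∃ κ : ℝ → ℝ, ContDiff ℝ 2 κ ∧ HasCompactSupport κ ∧
    (∀ s, 0 ≤ κ s) ∧ Integrable κ ∧ (∫ u, κ u = 1) ∧ (∀ u, u ≤ 0 → κ u = 0) ∧
    (∀ u, ε ≤ u → κ u = 0) := by
  let f : ContDiffBump (ε / 2 : ℝ) := ⟨ε / 4, ε / 2, by positivity, by linarith⟩
  have hsupp : Function.support (f.normed volume) = Metric.ball (ε / 2) (ε / 2) :=
    f.support_normed_eq
  refine ⟨f.normed volume, f.contDiff_normed, f.hasCompactSupport_normed, fun s =>
    f.nonneg_normed s, f.integrable_normed, f.integral_normed, fun u hu => ?_, fun u hu => ?_⟩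
  · by_contra hne
    have : u ∈ Metric.ball (ε / 2) (ε / 2) := by rw [← hsupp]; exact hne
    rw [Metric.mem_ball, Real.dist_eq, abs_lt] at this
    linarith [this.1]
  · by_contra hne
    have : u ∈ Metric.ball (ε / 2) (ε / 2) := by rw [← hsupp]; exact hne
    rw [Metric.mem_ball, Real.dist_eq, abs_lt] at this
    linarith [this.2]

lemma volume_eq {d n : ℕ} (p : Fin (n + 1) → EuclideanSpace ℝ (Fin d)) (r : Fin (n + 1) → ℝ)
    (hr : ∀ i, 0 < r i) :
    volume (⋃ i, Metric.closedBall (p i) (r i)) =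
      volume {z : Fin d → ℝ | (mn fun k => sq z (p k) - r k ^ 2) ≤ 0} := by
  have hmp := (EuclideanSpace.volume_preserving_symm_measurableEquiv_toLp (Fin d))
  rw [← hmp.measure_preimage_equiv]
  congr 1
  ext x
  rw [mem_preimage, Set.mem_ofPred_eq, mn_le_iff, mem_iUnion]
  refine exists_congr fun k => ?_
  rw [Metric.mem_closedBall, EuclideanSpace.dist_eq, Real.sqrt_le_left (hr k).le, sub_nonpos]
  simp [Pool.Agent.Helper15.KP.sq, Real.dist_eq, sq_abs]

theorem vol_le {d n : ℕ} (p q : Fin (n + 1) → EuclideanSpace ℝ (Fin d)) (r : Fin (n + 1) → ℝ)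
    (hr : ∀ i, 0 < r i)
    (h : ∀ κ : ℝ → ℝ, ContDiff ℝ 2 κ → HasCompactSupport κ → (∀ s, 0 ≤ κ s) →
      ∫ z : Fin d → ℝ, (∫ u in Ioi (mn fun k => sq z (q k) - r k ^ 2), κ u) ≤
      ∫ z : Fin d → ℝ, (∫ u in Ioi (mn fun k => sq z (p k) - r k ^ 2), κ u)) :
    volume (⋃ i, Metric.closedBall (q i) (r i)) ≤ volume (⋃ i, Metric.closedBall (p i) (r i)) := by
  rw [volume_eq p r hr, volume_eq q r hr]
  set gp : (Fin d → ℝ) → ℝ := fun z => mn fun k => sq z (p k) - r k ^ 2 with hgp
  set gq : (Fin d → ℝ) → ℝ := fun z => mn fun k => sq z (q k) - r k ^ 2 with hgq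
  have cp : Continuous gp := continuous_mn (fun k => (p k).ofLp) (fun k => r k ^ 2)
  have cq : Continuous gq := continuous_mn (fun k => (q k).ofLp) (fun k => r k ^ 2)
  have fp : ∀ t, volume {z | gp z ≤ t} < ⊤ :=
    volume_lt_top (fun k => (p k).ofLp) (fun k => r k ^ 2)
  have fq : ∀ t, volume {z | gq z ≤ t} < ⊤ :=
    volume_lt_top (fun k => (q k).ofLp) (fun k => r k ^ 2)
  -- the basic comparison
  have key : ∀ ε : ℝ, 0 < ε → volume {z | gq z ≤ 0} ≤ volume {z | gp z ≤ ε} := by
    intro ε hε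
    obtain ⟨κ, h1, h2, h3, h4, h5, h6, h7⟩ := exists_bump hε
    have hk := h κ h1 h2 h3
    set Ψ : ℝ → ℝ := fun s => ∫ u in Ioi s, κ u with hΨ
    have Ψ_le : ∀ s, Ψ s ≤ 1 := by
      intro s
      rw [← h5]
      exact setIntegral_le_integral h4 (Filter.Eventually.of_forall h3)
    have Ψ_nn : ∀ s, 0 ≤ Ψ s := fun s => integral_nonneg h3
    have Ψ_one : ∀ s, s ≤ 0 → Ψ s = 1 := by
      intro s hs
      rw [← h5]
      refine setIntegral_eq_integral_of_forall_compl_eq_zero fun x hx => h6 x ?_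
      rw [mem_Ioi, not_lt] at hx
      linarith
    have Ψ_zero : ∀ s, ε ≤ s → Ψ s = 0 := by
      intro s hs
      refine setIntegral_eq_zero_of_forall_eq_zero fun x hx => h7 x ?_
      rw [mem_Ioi] at hx
      linarith
    have Ψ_anti : Antitone Ψ := by
      intro a b hab
      refine setIntegral_mono_set h4.integrableOn (Filter.Eventually.of_forall h3) ?_
      exact (Ioi_subset_Ioi hab).eventuallyLE
    have bnd : ∀ g : (Fin d → ℝ) → ℝ, ∀ z,
        ‖Ψ (g z)‖ ≤ ({z | g z ≤ ε}.indicator (fun _ => (1:ℝ))) z := by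
      intro g z
      rw [Real.norm_of_nonneg (Ψ_nn _)]
      by_cases hz : g z ≤ ε
      · rw [indicator_of_mem (show z ∈ {z | g z ≤ ε} from hz)]
        exact Ψ_le _
      · rw [indicator_of_notMem (show z ∉ {z | g z ≤ ε} from hz), Ψ_zero _ (not_le.1 hz).le]
    have integ : ∀ g : (Fin d → ℝ) → ℝ, Continuous g → (∀ t, volume {z | g z ≤ t} < ⊤) →
        Integrable (fun z => Ψ (g z)) := by
      intro g hg hf
      refine Integrable.mono' (g := {z | g z ≤ ε}.indicator (fun _ => (1:ℝ))) ?_ ?_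
        (Filter.Eventually.of_forall (bnd g))
      · exact (integrable_indicator_iff (isClosed_le hg continuous_const).measurableSet).2
          (integrableOn_const (hf ε).ne)
      · exact (Ψ_anti.measurable.comp hg.measurable).aestronglyMeasurable
    have e1 : volume.real {z | gq z ≤ 0} ≤ ∫ z, Ψ (gq z) := by
      have hm : MeasurableSet {z | gq z ≤ 0} := (isClosed_le cq continuous_const).measurableSet
      have : volume.real {z | gq z ≤ 0} = ∫ z, ({z | gq z ≤ 0}.indicator (fun _ => (1:ℝ))) z := by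
        rw [integral_indicator hm]
        simp
      rw [this]
      refine integral_mono ?_ (integ gq cq fq) ?_
      · exact (integrable_indicator_iff hm).2 (integrableOn_const (fq 0).ne)
      · intro z
        by_cases hz : gq z ≤ 0
        · show ({z | gq z ≤ 0}.indicator (fun _ => (1:ℝ))) z ≤ Ψ (gq z)
          rw [indicator_of_mem (show z ∈ {z | gq z ≤ 0} from hz), Ψ_one _ hz]
        · show ({z | gq z ≤ 0}.indicator (fun _ => (1:ℝ))) z ≤ Ψ (gq z)
          rw [indicator_of_notMem (show z ∉ {z | gq z ≤ 0} from hz)]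
          exact Ψ_nn _
    have e2 : ∫ z, Ψ (gp z) ≤ volume.real {z | gp z ≤ ε} := by
      have hm : MeasurableSet {z | gp z ≤ ε} := (isClosed_le cp continuous_const).measurableSet
      have : volume.real {z | gp z ≤ ε} = ∫ z, ({z | gp z ≤ ε}.indicator (fun _ => (1:ℝ))) z := by
        rw [integral_indicator hm]
        simp
      rw [this]
      refine integral_mono (integ gp cp fp) ?_ ?_
      · exact (integrable_indicator_iff hm).2 (integrableOn_const (fp ε).ne)
      · intro z
        have := bnd gp z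
        rwa [Real.norm_of_nonneg (Ψ_nn _)] at this
    have e3 : volume.real {z | gq z ≤ 0} ≤ volume.real {z | gp z ≤ ε} :=
      le_trans e1 (le_trans hk e2)
    rw [Measure.real, Measure.real] at e3
    exact (ENNReal.toReal_le_toReal (fq 0).ne (fp ε).ne).1 e3
  -- pass to the limit
  have hlim : Filter.Tendsto (fun N : ℕ => volume {z | gp z ≤ 1 / ((N : ℝ) + 1)}) Filter.atTop
      (nhds (volume (⋂ N : ℕ, {z | gp z ≤ 1 / ((N : ℝ) + 1)}))) := by
    refine tendsto_measure_iInter_atTop (fun N => ?_) ?_ ⟨0, (fp _).ne⟩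
    · exact (isClosed_le cp continuous_const).measurableSet.nullMeasurableSet
    · intro a b hab z hz
      have h1 : (1:ℝ) / ((b : ℝ) + 1) ≤ 1 / ((a : ℝ) + 1) := by
        have : (a : ℝ) ≤ b := by exact_mod_cast hab
        exact one_div_le_one_div_of_le (by positivity) (by linarith)
      exact le_trans hz h1
  have hInter : (⋂ N : ℕ, {z | gp z ≤ 1 / ((N : ℝ) + 1)}) = {z | gp z ≤ 0} := by
    ext z
    rw [mem_iInter]
    constructor
    · intro hz
      exact ge_of_tendsto' tendsto_one_div_add_atTop_nhds_zero_nat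
        (fun N => show gp z ≤ 1 / ((N : ℝ) + 1) from hz N)
    · intro hz N
      exact le_trans (show gp z ≤ 0 from hz) (by positivity)
  rw [hInter] at hlim
  exact ge_of_tendsto' hlim (fun N => key _ (by positivity))

end Pool.Agent.Helper48.KP
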